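import Mathlib

set_option autoImplicit false

/-!
# Intervals with pointers

A level is an interval `(β, α)` of natural numbers; its pointer is `2 β - α`. A level `v` is
related to a level `w` when `w` lies to the left of `v` and contains the pointer of `v`.
We construct weighted families of levels all of whose unrelated subfamilies have small weight.
-/

namespace Pool.Agent.K9h64.SA

open Finset

/-- `w` lies to the left of `v` and contains the pointer `2 β - α` of `v`. -/
def Rel {V : Type} (α β : V → ℕ) (v w : V) : Prop :=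
  α w < β v ∧ 2 * β v < α v + α w ∧ α v + β w < 2 * β v

/-- A set of levels without related pairs. -/
def Indep {V : Type} (α β : V → ℕ) (I : Finset V) : Prop :=
  ∀ v ∈ I, ∀ w ∈ I, ¬ Rel α β v w

/-- The order of the right ends is compatible with the order of the centres. -/
def Chain {V : Type} (α β : V → ℕ) : Prop :=
  ∀ v w, v ≠ w → (α v < α w ∧ α v + β v < α w + β w) ∨ (α w < α v ∧ α w + β w < α v + β v)

/-- The probe `p` hits the set `I`. -/
def Hit {V P : Type} (α β : V → ℕ) (r : P → ℕ) (I : Finset V) (p : P) : Prop :=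
  ∃ v ∈ I, β v < r p ∧ r p < α v

/-- A weighted family of levels with probes. -/
structure IsCfg {V P : Type} [Fintype V] [Fintype P] (k W D : ℕ) (α β m : V → ℕ) (r : P → ℕ) :
    Prop where
  D_pos : 0 < D
  P_card : Fintype.card P = 2 ^ (2 ^ k - 1)
  hβα : ∀ v, β v < α v
  hαW : ∀ v, α v < W
  hrW : ∀ p, r p < W
  r_inj : Function.Injective r
  chain : Chain α β
  probe : ∀ v p, r p < α v → 2 * r p < α v + β v
  wt : ∀ I : Finset V, Indep α β I → Fintype.card P * ∑ v ∈ I, m v ≤
    D * {p | Hit α β r I p}.ncard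
  total : 2 * ∑ v, m v = k * D
  V_card : Fintype.card V ≤ 2 ^ (2 ^ (k + 1))
  D_le : D ≤ 2 ^ (2 ^ (k + 1))

section Step

variable {V P : Type}

/-- the position of the new levels -/
def sF (W : ℕ) (r : P → ℕ) (q : P) : ℕ := 2 ^ (r q) * (W + 2)

/-- the size of a region -/
def om (W : ℕ) : ℕ := 2 ^ (W + 1) * (W + 2)

/-- the scaling factor -/
def lam (W : ℕ) : ℕ := 2 * om W

def la (W : ℕ) (α : V → ℕ) (r : P → ℕ) : V ⊕ P → ℕ
  | Sum.inl v => α v
  | Sum.inr q => 2 * sF W r q - r q

def lb (W : ℕ) (β : V → ℕ) (r : P → ℕ) : V ⊕ P → ℕ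
  | Sum.inl v => β v
  | Sum.inr q => sF W r q

def lr (W : ℕ) (r : P → ℕ) : P ⊕ P → ℕ
  | Sum.inl q => r q
  | Sum.inr q => sF W r q + 1

def nα (W : ℕ) (α : V → ℕ) (r : P → ℕ) : V ⊕ (P × (V ⊕ P)) → ℕ
  | Sum.inl v => lam W * α v
  | Sum.inr x => lam W * r x.1 + la W α r x.2

def nβ (W : ℕ) (β : V → ℕ) (r : P → ℕ) : V ⊕ (P × (V ⊕ P)) → ℕ
  | Sum.inl v => lam W * β v
  | Sum.inr x => lam W * r x.1 + lb W β r x.2

def nr (W : ℕ) (r : P → ℕ) (y : P × (P ⊕ P)) : ℕ := lam W * r y.1 + lr W r y.2

def nm (D c : ℕ) (m : V → ℕ) : V ⊕ (P × (V ⊕ P)) → ℕ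
  | Sum.inl v => m v * c ^ 2
  | Sum.inr (_, Sum.inl v) => m v * c
  | Sum.inr (_, Sum.inr _) => D

lemma scale (l : ℕ) {x y : ℕ} (h : x < y) : l * x + l ≤ l * y := by
  calc l * x + l = l * (x + 1) := by ring
    _ ≤ l * y := Nat.mul_le_mul_left l h

lemma scale2 (l : ℕ) {x y z : ℕ} (h : 2 * x < y + z) : 2 * (l * x) + l ≤ l * y + l * z := by
  calc 2 * (l * x) + l = l * (2 * x + 1) := by ring
    _ ≤ l * (y + z) := Nat.mul_le_mul_left l h
    _ = _ := by ring

lemma sF_ge (W : ℕ) (r : P → ℕ) (q : P) : W + 2 ≤ sF W r q := by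
  unfold sF
  exact Nat.le_mul_of_pos_left _ (by positivity)

lemma sF_lt {W : ℕ} {r : P → ℕ} {q : P} (h : r q < W) : 2 * sF W r q < om W := by
  unfold sF om
  have h1 : 2 ^ (r q) < 2 ^ W := Nat.pow_lt_pow_right (by norm_num) h
  have h2 : 2 ^ (r q) * (W + 2) < 2 ^ W * (W + 2) := Nat.mul_lt_mul_of_pos_right h1 (by omega)
  calc 2 * (2 ^ (r q) * (W + 2)) < 2 * (2 ^ W * (W + 2)) := by omega
    _ = _ := by ring

lemma sF_mono {W : ℕ} {r : P → ℕ} {q q' : P} (h : r q < r q') : 2 * sF W r q ≤ sF W r q' := by
  unfold sF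
  have h1 : 2 ^ (r q + 1) ≤ 2 ^ (r q') := Nat.pow_le_pow_right (by norm_num) h
  calc 2 * (2 ^ (r q) * (W + 2)) = 2 ^ (r q + 1) * (W + 2) := by ring
    _ ≤ _ := Nat.mul_le_mul_right _ h1

lemma om_gt (W : ℕ) : W < om W := by
  unfold om
  have : 1 ≤ 2 ^ (W + 1) := Nat.one_le_two_pow
  nlinarith

variable [Fintype V] [Fintype P] {k W D : ℕ} {α β m : V → ℕ} {r : P → ℕ}

/-- local coordinates of the elements in a region -/
lemma local_bounds (h : IsCfg k W D α β m r) (x : V ⊕ P) :
    lb W β r x < la W α r x ∧ la W α r x < om W := by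
  rcases x with v | q
  · have h1 := h.hβα v
    have h2 := h.hαW v
    have h3 := om_gt W
    simp only [la, lb]
    omega
  · have h1 := h.hrW q
    have h2 := sF_ge W r q
    have h3 := sF_lt h1
    simp only [la, lb]
    omega

lemma lr_lt (h : IsCfg k W D α β m r) (y : P ⊕ P) : lr W r y < om W := by
  rcases y with q | q
  · have h1 := h.hrW q
    have h3 := om_gt W
    simp only [lr]
    omega
  · have h1 := h.hrW q
    have h2 := sF_ge W r q
    have h3 := sF_lt h1
    simp only [lr]
    omega

lemma lr_inj (h : IsCfg k W D α β m r) : Function.Injective (lr W r) := by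
  have hs : ∀ q q' : P, sF W r q = sF W r q' → q = q' := by
    intro q q' he
    rcases lt_trichotomy (r q) (r q') with h1 | h1 | h1
    · have h2 := sF_mono (W := W) h1
      have h3 := sF_ge W r q
      omega
    · exact h.r_inj h1
    · have h2 := sF_mono (W := W) h1
      have h3 := sF_ge W r q
      omega
  rintro (q | q) (q' | q') he
  · simp only [lr] at he
    rw [h.r_inj he]
  · simp only [lr] at he
    have h1 := h.hrW q
    have h2 := sF_ge W r q'
    omega
  · simp only [lr] at he
    have h1 := h.hrW q'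
    have h2 := sF_ge W r q
    omega
  · simp only [lr] at he
    rw [hs q q' (by omega)]

lemma local_chain (h : IsCfg k W D α β m r) : Chain (la W α r) (lb W β r) := by
  rintro (v | q) (w | q') hne
  · have hvw : v ≠ w := fun e => hne (by rw [e])
    simpa only [la, lb] using h.chain v w hvw
  · left
    have h1 := h.hβα v
    have h2 := h.hαW v
    have h3 := sF_ge W r q'
    have h4 := h.hrW q'
    simp only [la, lb]
    omega
  · right
    have h1 := h.hβα w
    have h2 := h.hαW w
    have h3 := sF_ge W r q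
    have h4 := h.hrW q
    simp only [la, lb]
    omega
  · have hqq : q ≠ q' := fun e => hne (by rw [e])
    have h3 := sF_ge W r q
    have h3' := sF_ge W r q'
    have h4 := h.hrW q
    have h4' := h.hrW q'
    simp only [la, lb]
    rcases lt_trichotomy (r q) (r q') with h1 | h1 | h1
    · have h2 := sF_mono (W := W) h1
      left; omega
    · exact absurd (h.r_inj h1) hqq
    · have h2 := sF_mono (W := W) h1
      right; omega

lemma local_probe (h : IsCfg k W D α β m r) (x : V ⊕ P) (y : P ⊕ P)
    (hxy : lr W r y < la W α r x) : 2 * lr W r y < la W α r x + lb W β r x := by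
  rcases x with v | q <;> rcases y with q' | q'
  · simp only [la, lb, lr] at hxy ⊢
    exact h.probe v q' hxy
  · simp only [la, lb, lr] at hxy ⊢
    have h2 := h.hαW v
    have h3 := sF_ge W r q'
    omega
  · simp only [la, lb, lr] at hxy ⊢
    have h3 := sF_ge W r q
    have h4 := h.hrW q
    have h4' := h.hrW q'
    omega
  · simp only [la, lb, lr] at hxy ⊢
    have h3 := sF_ge W r q
    have h3' := sF_ge W r q'
    have h4 := h.hrW q
    have h4' := h.hrW q'
    rcases lt_trichotomy (r q) (r q') with h1 | h1 | h1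
    · have h2 := sF_mono (W := W) h1
      omega
    · have := h.r_inj h1
      subst this
      omega
    · have h2 := sF_mono (W := W) h1
      omega

lemma new_chain (h : IsCfg k W D α β m r) : Chain (nα W α r) (nβ W β r) := by
  have hlam : lam W = 2 * om W := rfl
  have hom := om_gt W
  -- outer versus region
  have key : ∀ (v : V) (x : P × (V ⊕ P)),
      (nα W α r (Sum.inl v) < nα W α r (Sum.inr x) ∧
        nα W α r (Sum.inl v) + nβ W β r (Sum.inl v) <
          nα W α r (Sum.inr x) + nβ W β r (Sum.inr x)) ∨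
      (nα W α r (Sum.inr x) < nα W α r (Sum.inl v) ∧
        nα W α r (Sum.inr x) + nβ W β r (Sum.inr x) <
          nα W α r (Sum.inl v) + nβ W β r (Sum.inl v)) := by
    rintro v ⟨p, x⟩
    have h1 := local_bounds h x
    simp only [nα, nβ]
    rcases Nat.lt_or_ge (r p) (α v) with h2 | h2
    · right
      have h3 := h.probe v p h2
      have h4 := scale (lam W) h2
      have h5 := scale2 (lam W) h3
      omega
    · left
      have h3 := h.hβα v
      have h4 : lam W * α v ≤ lam W * r p := Nat.mul_le_mul_left _ h2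
      have h5 := scale (lam W) h3
      omega
  rintro (v | ⟨p, x⟩) (w | ⟨p', x'⟩) hne
  · have hvw : v ≠ w := fun e => hne (by rw [e])
    simp only [nα, nβ]
    rcases h.chain v w hvw with ⟨h1, h2⟩ | ⟨h1, h2⟩
    · left
      have h3 := scale (lam W) h1
      have h4 := scale (lam W) h2
      simp only [mul_add] at h4
      omega
    · right
      have h3 := scale (lam W) h1
      have h4 := scale (lam W) h2
      simp only [mul_add] at h4
      omega
  · exact key v ⟨p', x'⟩
  · exact (key w ⟨p, x⟩).symm
  · have h1 := local_bounds h x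
    have h1' := local_bounds h x'
    rcases lt_trichotomy (r p) (r p') with h2 | h2 | h2
    · left
      have h3 := scale (lam W) h2
      simp only [nα, nβ]
      omega
    · have hp := h.r_inj h2
      subst hp
      have hxx : x ≠ x' := fun e => hne (by rw [e])
      have h3 := local_chain h x x' hxx
      simp only [nα, nβ]
      omega
    · right
      have h3 := scale (lam W) h2
      simp only [nα, nβ]
      omega

lemma new_probe (h : IsCfg k W D α β m r) (x : V ⊕ (P × (V ⊕ P))) (y : P × (P ⊕ P))
    (hxy : nr W r y < nα W α r x) : 2 * nr W r y < nα W α r x + nβ W β r x := by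
  have hlam : lam W = 2 * om W := rfl
  have hom := om_gt W
  obtain ⟨p, y⟩ := y
  have hy := lr_lt h y
  rcases x with v | ⟨p', x⟩
  · simp only [nr, nα, nβ] at hxy ⊢
    rcases Nat.lt_or_ge (r p) (α v) with h2 | h2
    · have h3 := h.probe v p h2
      have h5 := scale2 (lam W) h3
      omega
    · have h4 : lam W * α v ≤ lam W * r p := Nat.mul_le_mul_left _ h2
      omega
  · have h1 := local_bounds h x
    simp only [nr, nα, nβ] at hxy ⊢
    rcases lt_trichotomy (r p) (r p') with h2 | h2 | h2
    · have h3 := scale (lam W) h2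
      omega
    · have hp := h.r_inj h2
      subst hp
      have h3 := local_probe h x y (by omega)
      omega
    · have h3 := scale (lam W) h2
      omega

lemma new_inj (h : IsCfg k W D α β m r) : Function.Injective (nr W r) := by
  have hlam : lam W = 2 * om W := rfl
  rintro ⟨p, y⟩ ⟨p', y'⟩ he
  have hy := lr_lt h y
  have hy' := lr_lt h y'
  simp only [nr] at he
  rcases lt_trichotomy (r p) (r p') with h2 | h2 | h2
  · have h3 := scale (lam W) h2
    omega
  · have hp := h.r_inj h2
    subst hp
    rw [lr_inj h (show lr W r y = lr W r y' by omega)]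
  · have h3 := scale (lam W) h2
    omega

end Step

end Pool.Agent.K9h64.SA
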