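import Mathlib
import Pool.Agent.K9h64.SA.Config

set_option autoImplicit false

namespace Pool.Agent.K9h64.SA

open Finset Classical

lemma ncard_filter {P : Type} [Fintype P] (Q : P → Prop) :
    {p | Q p}.ncard = ∑ p, if Q p then 1 else 0 := by
  rw [← Finset.card_filter, ← Set.ncard_coe_finset]
  congr 1
  ext p
  simp

section Step

variable {V P : Type} [Fintype V] [Fintype P] {k W D : ℕ} {α β m : V → ℕ} {r : P → ℕ}

lemma rel_outer {v w : V} (W : ℕ) (r : P → ℕ) (h : Rel α β v w) :
    Rel (nα W α r) (nβ W β r) (Sum.inl v) (Sum.inl w) := by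
  obtain ⟨h1, h2, h3⟩ := h
  have hl : 0 < lam W := by
    have := om_gt W
    unfold lam; omega
  simp only [Rel, nα, nβ]
  refine ⟨Nat.mul_lt_mul_of_pos_left h1 hl, ?_, ?_⟩
  · calc 2 * (lam W * β v) = lam W * (2 * β v) := by ring
      _ < lam W * (α v + α w) := Nat.mul_lt_mul_of_pos_left h2 hl
      _ = _ := by ring
  · calc lam W * α v + lam W * β w = lam W * (α v + β w) := by ring
      _ < lam W * (2 * β v) := Nat.mul_lt_mul_of_pos_left h3 hl
      _ = _ := by ring

lemma rel_inner {v w : V} (W : ℕ) (r : P → ℕ) (p : P) (h : Rel α β v w) :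
    Rel (nα W α r) (nβ W β r) (Sum.inr (p, Sum.inl v)) (Sum.inr (p, Sum.inl w)) := by
  obtain ⟨h1, h2, h3⟩ := h
  simp only [Rel, nα, nβ, la, lb]
  omega

lemma rel_new (h : IsCfg k W D α β m r) (p q : P) {w : V} (h1 : β w < r q) (h2 : r q < α w) :
    Rel (nα W α r) (nβ W β r) (Sum.inr (p, Sum.inr q)) (Sum.inr (p, Sum.inl w)) := by
  have h3 := sF_ge W r q
  have h4 := h.hrW q
  have h5 := h.hαW w
  simp only [Rel, nα, nβ, la, lb]
  omega

lemma new_wt (h : IsCfg k W D α β m r) (I : Finset (V ⊕ (P × (V ⊕ P))))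
    (hI : Indep (nα W α r) (nβ W β r) I) :
    Fintype.card (P × (P ⊕ P)) * ∑ x ∈ I, nm D (Fintype.card P) m x ≤
      (2 * D * Fintype.card P ^ 2) * {y | Hit (nα W α r) (nβ W β r) (nr W r) I y}.ncard := by
  set c := Fintype.card P with hc
  set I0 : Finset V := univ.filter (fun v => Sum.inl v ∈ I) with hI0
  set Ip : P → Finset V := fun p => univ.filter (fun v => Sum.inr (p, Sum.inl v) ∈ I) with hIp
  have hlam : lam W = 2 * om W := rfl
  have hom := om_gt W
  have ind0 : Indep α β I0 := by
    intro v hv w hw hvw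
    rw [hI0, mem_filter] at hv hw
    exact hI _ hv.2 _ hw.2 (rel_outer W r hvw)
  have indp : ∀ p, Indep α β (Ip p) := by
    intro p v hv w hw hvw
    simp only [hIp, mem_filter] at hv hw
    exact hI _ hv.2 _ hw.2 (rel_inner W r p hvw)
  have w0 := h.wt I0 ind0
  have wp := fun p => h.wt (Ip p) (indp p)
  -- splitting of the weight
  have hsum : ∑ x ∈ I, nm D c m x = c ^ 2 * ∑ v ∈ I0, m v + c * ∑ p, ∑ v ∈ Ip p, m v +
      D * ∑ p, ∑ q, (if Sum.inr (p, Sum.inr q) ∈ I then 1 else 0) := by
    have h1 : ∑ x ∈ I, nm D c m x = ∑ x, if x ∈ I then nm D c m x else 0 := by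
      rw [← Finset.sum_filter]; congr 1; ext x; simp
    rw [h1, Fintype.sum_sum_type, Fintype.sum_prod_type]
    simp only [Fintype.sum_sum_type, nm]
    rw [add_assoc]
    congr 1
    · rw [hI0, Finset.sum_filter, mul_sum]
      apply sum_congr rfl; intro v _
      split_ifs <;> ring
    · rw [Finset.sum_add_distrib]
      congr 1
      · rw [mul_sum]
        apply sum_congr rfl; intro p _
        simp only [hIp, Finset.sum_filter, mul_sum]
        apply sum_congr rfl; intro v _
        split_ifs <;> ring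
      · rw [mul_sum]
        apply sum_congr rfl; intro p _
        rw [mul_sum]
        apply sum_congr rfl; intro q _
        split_ifs <;> ring
  -- splitting of the hits
  have hhit : {y | Hit (nα W α r) (nβ W β r) (nr W r) I y}.ncard =
      ∑ p, (∑ q, (if Hit (nα W α r) (nβ W β r) (nr W r) I (p, Sum.inl q) then 1 else 0) +
        ∑ q, (if Hit (nα W α r) (nβ W β r) (nr W r) I (p, Sum.inr q) then 1 else 0)) := by
    rw [ncard_filter, Fintype.sum_prod_type]
    apply sum_congr rfl; intro p _
    rw [Fintype.sum_sum_type]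
  -- the pointwise inequality
  have hpt : ∀ p q, (if Hit α β r I0 p then 1 else 0) + (if Hit α β r (Ip p) q then 1 else 0) +
      (if Sum.inr (p, Sum.inr q) ∈ I then 1 else 0) ≤
      (if Hit (nα W α r) (nβ W β r) (nr W r) I (p, Sum.inl q) then 1 else 0) +
      (if Hit (nα W α r) (nβ W β r) (nr W r) I (p, Sum.inr q) then 1 else 0) := by
    intro p q
    have hrq := h.hrW q
    have hs1 := sF_ge W r q
    have hs2 := sF_lt hrq
    have c1 : Hit α β r I0 p → Hit (nα W α r) (nβ W β r) (nr W r) I (p, Sum.inl q) := by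
      rintro ⟨v, hv, h1, h2⟩
      rw [hI0, mem_filter] at hv
      refine ⟨Sum.inl v, hv.2, ?_⟩
      have h3 := scale (lam W) h1
      have h4 := scale (lam W) h2
      simp only [nβ, nα, nr, lr]
      omega
    have c2 : Hit α β r I0 p → Hit (nα W α r) (nβ W β r) (nr W r) I (p, Sum.inr q) := by
      rintro ⟨v, hv, h1, h2⟩
      rw [hI0, mem_filter] at hv
      refine ⟨Sum.inl v, hv.2, ?_⟩
      have h3 := scale (lam W) h1
      have h4 := scale (lam W) h2
      simp only [nβ, nα, nr, lr]
      omega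
    have c3 : Hit α β r (Ip p) q → Hit (nα W α r) (nβ W β r) (nr W r) I (p, Sum.inl q) := by
      rintro ⟨v, hv, h1, h2⟩
      simp only [hIp, mem_filter] at hv
      refine ⟨Sum.inr (p, Sum.inl v), hv.2, ?_⟩
      simp only [nβ, nα, nr, lr, la, lb]
      omega
    have c4 : Sum.inr (p, Sum.inr q) ∈ I → Hit (nα W α r) (nβ W β r) (nr W r) I (p, Sum.inr q) := by
      intro hv
      refine ⟨Sum.inr (p, Sum.inr q), hv, ?_⟩
      simp only [nβ, nα, nr, lr, la, lb]
      omega
    have c5 : Hit α β r (Ip p) q → ¬ (Sum.inr (p, Sum.inr q) ∈ I) := by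
      rintro ⟨v, hv, h1, h2⟩ hd
      simp only [hIp, mem_filter] at hv
      exact hI _ hd _ hv.2 (rel_new h p q h1 h2)
    by_cases a1 : Hit α β r I0 p
    · rw [if_pos a1, if_pos (c1 a1), if_pos (c2 a1)]
      by_cases a2 : Hit α β r (Ip p) q
      · rw [if_pos a2, if_neg (c5 a2)]
      · rw [if_neg a2]; split_ifs <;> omega
    · rw [if_neg a1]
      by_cases a2 : Hit α β r (Ip p) q
      · rw [if_pos a2, if_neg (c5 a2), if_pos (c3 a2)]; split_ifs <;> omega
      · rw [if_neg a2]
        by_cases a3 : Sum.inr (p, Sum.inr q) ∈ I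
        · rw [if_pos a3, if_pos (c4 a3)]; split_ifs <;> omega
        · rw [if_neg a3]; omega
  -- combination
  have hcomb : ∑ x ∈ I, nm D c m x ≤
      D * {y | Hit (nα W α r) (nβ W β r) (nr W r) I y}.ncard := by
    rw [ncard_filter] at w0
    have wp' : ∀ p, c * ∑ v ∈ Ip p, m v ≤ D * ∑ q, if Hit α β r (Ip p) q then 1 else 0 := by
      intro p
      have := wp p
      rwa [ncard_filter] at this
    have s1 : c ^ 2 * ∑ v ∈ I0, m v ≤ D * ∑ p, ∑ _q : P, (if Hit α β r I0 p then 1 else 0) := by
      calc c ^ 2 * ∑ v ∈ I0, m v = c * (c * ∑ v ∈ I0, m v) := by ring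
        _ ≤ c * (D * ∑ p, if Hit α β r I0 p then 1 else 0) := Nat.mul_le_mul_left _ w0
        _ = D * ∑ p, ∑ _q : P, (if Hit α β r I0 p then 1 else 0) := by
            simp only [sum_const, card_univ, smul_eq_mul, ← hc]
            rw [← mul_sum]; ring
    have s2 : c * ∑ p, ∑ v ∈ Ip p, m v ≤
        D * ∑ p, ∑ q, (if Hit α β r (Ip p) q then 1 else 0) := by
      rw [mul_sum, mul_sum]
      exact sum_le_sum (fun p _ => wp' p)
    rw [hsum, hhit]
    calc _ ≤ D * ∑ p, ∑ _q : P, (if Hit α β r I0 p then 1 else 0) +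
          D * ∑ p, ∑ q, (if Hit α β r (Ip p) q then 1 else 0) +
          D * ∑ p, ∑ q, (if Sum.inr (p, Sum.inr q) ∈ I then 1 else 0) := by
            gcongr
      _ = D * ∑ p, ∑ q, ((if Hit α β r I0 p then 1 else 0) +
          (if Hit α β r (Ip p) q then 1 else 0) +
          (if Sum.inr (p, Sum.inr q) ∈ I then 1 else 0)) := by
            rw [← mul_add, ← mul_add, ← sum_add_distrib, ← sum_add_distrib]
            congr 1
            apply sum_congr rfl; intro p _
            rw [← sum_add_distrib, ← sum_add_distrib]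
      _ ≤ _ := by
            apply Nat.mul_le_mul_left
            apply sum_le_sum; intro p _
            rw [← sum_add_distrib]
            exact sum_le_sum (fun q _ => hpt p q)
  rw [Fintype.card_prod, Fintype.card_sum, ← hc]
  calc c * (c + c) * ∑ x ∈ I, nm D c m x ≤
      c * (c + c) * (D * {y | Hit (nα W α r) (nβ W β r) (nr W r) I y}.ncard) :=
        Nat.mul_le_mul_left _ hcomb
    _ = _ := by ring

lemma new_total (h : IsCfg k W D α β m r) :
    2 * ∑ x : V ⊕ (P × (V ⊕ P)), nm D (Fintype.card P) m x =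
      (k + 1) * (2 * D * Fintype.card P ^ 2) := by
  set c := Fintype.card P with hc
  have ht := h.total
  have h1 : ∑ x : V ⊕ (P × (V ⊕ P)), nm D c m x = c ^ 2 * ∑ v, m v + c * (c * ∑ v, m v) + c * (c * D) := by
    rw [Fintype.sum_sum_type, Fintype.sum_prod_type]
    simp only [Fintype.sum_sum_type, nm]
    rw [Finset.sum_add_distrib]
    simp only [sum_const, card_univ, smul_eq_mul, ← hc, ← Finset.sum_mul]
    ring
  rw [h1]
  calc 2 * (c ^ 2 * ∑ v, m v + c * (c * ∑ v, m v) + c * (c * D))
      = 2 * c ^ 2 * (2 * ∑ v, m v) + 2 * c ^ 2 * D := by ring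
    _ = _ := by rw [ht]; ring

end Step

theorem exists_cfg (k : ℕ) : ∃ (V P : Type) (_ : Fintype V) (_ : Fintype P) (W D : ℕ)
    (α β m : V → ℕ) (r : P → ℕ), IsCfg k W D α β m r := by
  induction k with
  | zero =>
    refine ⟨Empty, Unit, inferInstance, inferInstance, 1, 1, Empty.elim, Empty.elim, Empty.elim,
      fun _ => 0, ?_⟩
    constructor
    · norm_num
    · simp
    · intro v; exact v.elim
    · intro v; exact v.elim
    · intro p; norm_num
    · intro p q _; rfl
    · intro v; exact v.elim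
    · intro v; exact v.elim
    · intro I _
      rw [Finset.eq_empty_of_isEmpty I]
      simp
    · simp
    · simp
    · norm_num
  | succ k ih =>
    obtain ⟨V, P, fV, fP, W, D, α, β, m, r, h⟩ := ih
    refine ⟨V ⊕ (P × (V ⊕ P)), P × (P ⊕ P), inferInstance, inferInstance, lam W * W,
      2 * D * Fintype.card P ^ 2, nα W α r, nβ W β r, nm D (Fintype.card P) m, nr W r, ?_⟩
    have hc := h.P_card
    have hcpos : 0 < Fintype.card P := by rw [hc]; positivity
    have hk1 : 2 ^ k - 1 + 1 = 2 ^ k := by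
      have : 1 ≤ 2 ^ k := Nat.one_le_two_pow
      omega
    have hlam : lam W = 2 * om W := rfl
    have hom := om_gt W
    constructor
    · have := h.D_pos
      positivity
    · rw [Fintype.card_prod, Fintype.card_sum, hc]
      have e : 2 ^ (k + 1) - 1 = (2 ^ k - 1) + (2 ^ k - 1) + 1 := by
        have : 1 ≤ 2 ^ k := Nat.one_le_two_pow
        rw [pow_succ]; omega
      rw [e, pow_succ, pow_add]; ring
    · rintro (v | ⟨p, x⟩)
      · simp only [nα, nβ]
        have h1 := scale (lam W) (h.hβα v)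
        omega
      · have h1 := local_bounds h x
        simp only [nα, nβ]
        omega
    · rintro (v | ⟨p, x⟩)
      · simp only [nα]
        have h1 := scale (lam W) (h.hαW v)
        omega
      · have h1 := local_bounds h x
        have h2 := scale (lam W) (h.hrW p)
        simp only [nα]
        omega
    · rintro ⟨p, y⟩
      have h1 := lr_lt h y
      have h2 := scale (lam W) (h.hrW p)
      simp only [nr]
      omega
    · exact new_inj h
    · exact new_chain h
    · intro x y; exact new_probe h x y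
    · intro I hI; exact new_wt h I hI
    · exact new_total h
    · rw [Fintype.card_sum, Fintype.card_prod, Fintype.card_sum]
      have hV := h.V_card
      have hP : Fintype.card P ≤ 2 ^ (2 ^ k) := by
        rw [hc]; exact Nat.pow_le_pow_right (by norm_num) (by omega)
      have hPP : 2 * Fintype.card P ≤ 2 ^ (2 ^ k) := by
        rw [hc]
        calc 2 * 2 ^ (2 ^ k - 1) = 2 ^ (2 ^ k - 1 + 1) := by rw [pow_succ]; ring
          _ = _ := by rw [hk1]
          _ ≤ _ := le_rfl
      set v := Fintype.card V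
      set c := Fintype.card P
      set X := 2 ^ (2 ^ k) with hX
      have e1 : 2 ^ (2 ^ (k + 1)) = X * X := by
        rw [hX, ← pow_add]; congr 1; rw [pow_succ]; ring
      have e2 : 2 ^ (2 ^ (k + 1 + 1)) = (X * X) * (X * X) := by
        rw [← e1, ← pow_add]; congr 1; rw [pow_succ 2 (k + 1)]; ring
      rw [e1] at hV
      rw [e2]
      have hX2 : 2 ≤ X := by
        calc 2 = 2 ^ 1 := by norm_num
          _ ≤ X := Nat.pow_le_pow_right (by norm_num) Nat.one_le_two_pow
      have hXX : X * X ≤ (X * X) * X := Nat.le_mul_of_pos_right _ (by omega)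
      -- v + c (v + c) ≤ X^4
      have f1 : 2 * (c * (v + c)) ≤ X * (X * X + X) := by
        calc 2 * (c * (v + c)) = (2 * c) * (v + c) := by ring
          _ ≤ X * (X * X + X) := Nat.mul_le_mul hPP (by omega)
      have f2 : X * (X * X + X) ≤ (X * X) * (X * X) := by
        have : X * X + X ≤ X * (X * X) := by nlinarith
        calc X * (X * X + X) ≤ X * (X * (X * X)) := Nat.mul_le_mul_left _ this
          _ = _ := by ring
      have f3 : 2 * v ≤ (X * X) * (X * X) := by
        have : 2 ≤ X * X := by nlinarith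
        exact Nat.mul_le_mul this hV
      omega
    · have hD := h.D_le
      have e : 2 * Fintype.card P ^ 2 ≤ 2 ^ (2 ^ (k + 1)) := by
        rw [hc, ← pow_mul]
        calc 2 * 2 ^ ((2 ^ k - 1) * 2) = 2 ^ ((2 ^ k - 1) * 2 + 1) := by rw [pow_succ]; ring
          _ ≤ _ := Nat.pow_le_pow_right (by norm_num) (by rw [pow_succ]; omega)
      calc 2 * D * Fintype.card P ^ 2 = D * (2 * Fintype.card P ^ 2) := by ring
        _ ≤ 2 ^ (2 ^ (k + 1)) * 2 ^ (2 ^ (k + 1)) := Nat.mul_le_mul hD e
        _ = 2 ^ (2 ^ (k + 1 + 1)) := by rw [← pow_add]; congr 1; rw [pow_succ 2 (k + 1)]; ring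

end Pool.Agent.K9h64.SA
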