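import Mathlib
import Pool.Agent.K9h64.SA.Config

set_option autoImplicit false

/-!
# Strings over a family of levels

The vertices are the sets of levels. Two different sets are compared at the most significant
level in which they differ.
-/

namespace Pool.Agent.K9h64.SA

open Finset Classical

variable {ι : Type}

/-- `i` is the most significant level in which `s` and `t` differ, and it belongs to `t`. -/
def Top (α : ι → ℕ) (s t : Finset ι) (i : ι) : Prop :=
  i ∉ s ∧ i ∈ t ∧ ∀ j, α i < α j → (j ∈ s ↔ j ∈ t)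

lemma exists_top (α : ι → ℕ) (hα : Function.Injective α) {s t : Finset ι} (h : s ≠ t) :
    ∃ i, Top α s t i ∨ Top α t s i := by
  have hne : (symmDiff s t).Nonempty := by
    rw [Finset.nonempty_iff_ne_empty]
    intro h0
    apply h
    have : symmDiff s t = ⊥ := h0
    exact symmDiff_eq_bot.mp this
  obtain ⟨i, hi, hmax⟩ := Finset.exists_max_image (symmDiff s t) α hne
  refine ⟨i, ?_⟩
  have hout : ∀ j, α i < α j → (j ∈ s ↔ j ∈ t) := by
    intro j hj
    by_contra hcon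
    have hmem : j ∈ symmDiff s t := by
      rw [Finset.mem_symmDiff]; tauto
    have := hmax j hmem
    omega
  rw [Finset.mem_symmDiff] at hi
  rcases hi with ⟨h1, h2⟩ | ⟨h1, h2⟩
  · right; exact ⟨h2, h1, fun j hj => (hout j hj).symm⟩
  · left; exact ⟨h2, h1, hout⟩

lemma chain_inj {α β : ι → ℕ} (h : Chain α β) : Function.Injective α := by
  intro v w he
  by_contra hne
  rcases h v w hne with h1 | h1 <;> omega

lemma top_unique {α : ι → ℕ} (hα : Function.Injective α) {s t : Finset ι} {i j : ι}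
    (hi : Top α s t i) (hj : Top α s t j) : i = j := by
  rcases lt_trichotomy (α i) (α j) with h | h | h
  · have := hi.2.2 j h
    exact absurd (this.mpr hj.2.1) hj.1
  · exact hα h
  · have := hj.2.2 i h
    exact absurd (this.mpr hi.2.1) hi.1

lemma top_trans {α : ι → ℕ} {x y z : Finset ι} {i j : ι} (hi : Top α x y i) (hj : Top α y z j)
    (h : α j < α i) : Top α x z i :=
  ⟨hi.1, (hj.2.2 i h).mp hi.2.1, fun l hl => (hi.2.2 l hl).trans (hj.2.2 l (h.trans hl))⟩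

/-- No four strings all of whose triples are related. -/
lemma no_four {α β : ι → ℕ} (hα : Function.Injective α) (hβα : ∀ i, β i < α i)
    {x y z w : Finset ι} {i j l i' : ι} (h12 : Top α x y i) (h23 : Top α y z j)
    (h13 : Top α x z i') (h123 : Rel α β i j) (h134 : Rel α β i' l)
    (h234 : Rel α β j l) : False := by
  have h1 := hβα i
  have hji : α j < α i := h123.1.trans h1
  have := top_unique hα h13 (top_trans h12 h23 hji)
  subst this
  unfold Rel at *
  omega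

/-- The levels at which some string of `S` leaves `y` to the left. -/
noncomputable def Rt [Fintype ι] (α : ι → ℕ) (S : Finset (Finset ι)) (y : Finset ι) : Finset ι :=
  univ.filter (fun i => ∃ x ∈ S, Top α x y i)

/-- A family of strings without related triples is small. -/
lemma card_le_indep [Fintype ι] {α β : ι → ℕ} (hα : Function.Injective α)
    (hβα : ∀ i, β i < α i) (S : Finset (Finset ι))
    (hS : ∀ x ∈ S, ∀ y ∈ S, ∀ z ∈ S, ∀ i j, Top α x y i → Top α y z j → ¬ Rel α β i j) :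
    S.card ≤ ((univ : Finset (Finset ι)).filter (fun J => Indep α β J)).card := by
  apply Finset.card_le_card_of_injOn (Rt α S)
  · intro y hy
    rw [mem_coe] at hy
    simp only [coe_filter, mem_univ, true_and, Set.mem_ofPred_eq]
    intro v hv w hw hvw
    simp only [Rt, mem_filter, mem_univ, true_and] at hv hw
    obtain ⟨x, hx, hxv⟩ := hv
    obtain ⟨x', hx', hxw⟩ := hw
    have h1 := hβα v
    have hwv : α w < α v := hvw.1.trans h1
    have hxx : Top α x x' v := by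
      refine ⟨hxv.1, (hxw.2.2 v hwv).mpr hxv.2.1, fun l hl => ?_⟩
      exact (hxv.2.2 l hl).trans (hxw.2.2 l (hwv.trans hl)).symm
    exact hS x hx x' hx' y hy v w hxx hxw hvw
  · intro y hy y' hy' he
    by_contra hne
    rw [mem_coe] at hy hy'
    obtain ⟨i, hi | hi⟩ := exists_top α hα hne
    · have h1 : i ∈ Rt α S y' := by
        simp only [Rt, mem_filter, mem_univ, true_and]; exact ⟨y, hy, hi⟩
      rw [← he] at h1
      simp only [Rt, mem_filter, mem_univ, true_and] at h1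
      obtain ⟨x, _, hx⟩ := h1
      exact hi.1 hx.2.1
    · have h1 : i ∈ Rt α S y := by
        simp only [Rt, mem_filter, mem_univ, true_and]; exact ⟨y', hy', hi⟩
      rw [he] at h1
      simp only [Rt, mem_filter, mem_univ, true_and] at h1
      obtain ⟨x, _, hx⟩ := h1
      exact hi.1 hx.2.1

/-! ### Real coordinates -/

/-- `∑_{i ∈ s} 100 ^ (γ i)` -/
noncomputable def coord (γ : ι → ℕ) (s : Finset ι) : ℝ := ∑ i ∈ s, (100 : ℝ) ^ γ i

lemma low_sum {γ : ι → ℕ} (hγ : Function.Injective γ) (A : Finset ι) (g : ℕ)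
    (h : ∀ j ∈ A, γ j < g) : 0 ≤ ∑ j ∈ A, (100 : ℝ) ^ γ j ∧
      ∑ j ∈ A, (100 : ℝ) ^ γ j ≤ (100 : ℝ) ^ g / 99 := by
  constructor
  · positivity
  · have h1 : ∑ j ∈ A, (100 : ℝ) ^ γ j = ∑ k ∈ A.image γ, (100 : ℝ) ^ k := by
      rw [Finset.sum_image (fun x _ y _ hxy => hγ hxy)]
    have h2 : ∑ k ∈ A.image γ, (100 : ℝ) ^ k ≤ ∑ k ∈ range g, (100 : ℝ) ^ k := by
      apply sum_le_sum_of_subset_of_nonneg
      · intro k hk
        rw [mem_image] at hk
        obtain ⟨j, hj, rfl⟩ := hk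
        exact mem_range.mpr (h j hj)
      · intro k _ _; positivity
    have h3 := geom_sum_mul (100 : ℝ) g
    have h4 : (0 : ℝ) < (100 : ℝ) ^ g := by positivity
    rw [h1]
    refine h2.trans ?_
    rw [le_div_iff₀ (by norm_num)]
    linarith

lemma coord_diff {γ : ι → ℕ} (hγ : Function.Injective γ) {s t : Finset ι} {i : ι}
    (h1 : i ∉ s) (h2 : i ∈ t) (h3 : ∀ j, γ i < γ j → (j ∈ s ↔ j ∈ t)) :
    (98 / 99 : ℝ) * 100 ^ γ i ≤ coord γ t - coord γ s ∧
      coord γ t - coord γ s ≤ (100 / 99 : ℝ) * 100 ^ γ i := by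
  have e1 : coord γ t = ∑ j ∈ s ∩ t, (100 : ℝ) ^ γ j + ∑ j ∈ t \ s, (100 : ℝ) ^ γ j := by
    unfold coord
    rw [← sum_union]
    · congr 1; ext j; simp only [mem_union, mem_inter, mem_sdiff]; tauto
    · rw [Finset.disjoint_left]; intro j hj hj'
      simp only [mem_inter, mem_sdiff] at hj hj'; tauto
  have e2 : coord γ s = ∑ j ∈ s ∩ t, (100 : ℝ) ^ γ j + ∑ j ∈ s \ t, (100 : ℝ) ^ γ j := by
    unfold coord
    rw [← sum_union]
    · congr 1; ext j; simp only [mem_union, mem_inter, mem_sdiff]; tauto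
    · rw [Finset.disjoint_left]; intro j hj hj'
      simp only [mem_inter, mem_sdiff] at hj hj'; tauto
  have e3 : ∑ j ∈ t \ s, (100 : ℝ) ^ γ j = (100 : ℝ) ^ γ i +
      ∑ j ∈ (t \ s).erase i, (100 : ℝ) ^ γ j := by
    exact (Finset.add_sum_erase (t \ s) (fun j => (100 : ℝ) ^ γ j)
      (mem_sdiff.mpr ⟨h2, h1⟩)).symm
  have l1 := low_sum hγ (s \ t) (γ i) (by
    intro j hj
    rw [mem_sdiff] at hj
    by_contra hcon
    rcases Nat.lt_or_ge (γ i) (γ j) with h | h
    · exact hj.2 ((h3 j h).mp hj.1)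
    · have : γ j = γ i := by omega
      rw [hγ this] at hj
      exact h1 hj.1)
  have l2 := low_sum hγ ((t \ s).erase i) (γ i) (by
    intro j hj
    rw [mem_erase, mem_sdiff] at hj
    by_contra hcon
    rcases Nat.lt_or_ge (γ i) (γ j) with h | h
    · exact hj.2.2 ((h3 j h).mpr hj.2.1)
    · have : γ j = γ i := by omega
      exact hj.1 (hγ this))
  rw [e1, e2, e3]
  constructor
  · linarith [l1.1, l1.2, l2.1, l2.2]
  · linarith [l1.1, l1.2, l2.1, l2.2]

/-- the polynomial as a function of the two difference vectors -/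
def FF (u1 v1 u2 v2 : ℝ) : ℝ :=
  u1 ^ 3 * u2 * v1 ^ 2 - 2 * (u1 ^ 4 * u2 ^ 2 * v1 + v1 ^ 4 + u1 ^ 6 * v2)

/-- a number is close to a power of 100 -/
def Near (x : ℝ) (e : ℕ) : Prop := (98 / 99 : ℝ) * 100 ^ e ≤ x ∧ x ≤ (100 / 99 : ℝ) * 100 ^ e

lemma Near.pos {x : ℝ} {e : ℕ} (h : Near x e) : 0 < x :=
  lt_of_lt_of_le (by positivity) h.1

lemma sign_FF {a b c d : ℕ} {u1 v1 u2 v2 : ℝ} (hu1 : Near u1 a) (hv1 : Near v1 (a + b))
    (hu2 : Near u2 c) (hv2 : Near v2 (c + d)) :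
    0 ≤ FF u1 v1 u2 v2 ↔ (c < b ∧ 2 * b < a + c ∧ a + d < 2 * b) := by
  have pu1 := hu1.pos
  have pv1 := hv1.pos
  have pu2 := hu2.pos
  have pv2 := hv2.pos
  set Mn : ℝ := (100 : ℝ) ^ (5 * a + 2 * b + c) with hMn
  have Mpos : 0 < Mn := by positivity
  -- bounds of the four monomials
  have m_lo : (98 / 99 : ℝ) ^ 6 * Mn ≤ u1 ^ 3 * u2 * v1 ^ 2 := by
    calc (98 / 99 : ℝ) ^ 6 * Mn = ((98 / 99 : ℝ) * 100 ^ a) ^ 3 * ((98 / 99 : ℝ) * 100 ^ c) *
          ((98 / 99 : ℝ) * 100 ^ (a + b)) ^ 2 := by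
            rw [hMn, mul_pow, mul_pow, ← pow_mul, ← pow_mul]
            have : (100 : ℝ) ^ (5 * a + 2 * b + c) = 100 ^ (a * 3) * 100 ^ c * 100 ^ ((a + b) * 2) := by
              rw [← pow_add, ← pow_add]; congr 1; ring
            rw [this]; ring
      _ ≤ _ := by
        have h1 := hu1.1
        have h2 := hu2.1
        have h3 := hv1.1
        gcongr
  have m_hi : u1 ^ 3 * u2 * v1 ^ 2 ≤ (100 / 99 : ℝ) ^ 6 * Mn := by
    calc u1 ^ 3 * u2 * v1 ^ 2 ≤ ((100 / 99 : ℝ) * 100 ^ a) ^ 3 * ((100 / 99 : ℝ) * 100 ^ c) *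
          ((100 / 99 : ℝ) * 100 ^ (a + b)) ^ 2 := by
            have h1 := hu1.2
            have h2 := hu2.2
            have h3 := hv1.2
            gcongr
      _ = _ := by
            rw [hMn, mul_pow, mul_pow, ← pow_mul, ← pow_mul]
            have : (100 : ℝ) ^ (5 * a + 2 * b + c) = 100 ^ (a * 3) * 100 ^ c * 100 ^ ((a + b) * 2) := by
              rw [← pow_add, ← pow_add]; congr 1; ring
            rw [this]; ring
  have t1_lo : (98 / 99 : ℝ) ^ 7 * 100 ^ (5 * a + b + 2 * c) ≤ u1 ^ 4 * u2 ^ 2 * v1 := by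
    calc (98 / 99 : ℝ) ^ 7 * 100 ^ (5 * a + b + 2 * c) = ((98 / 99 : ℝ) * 100 ^ a) ^ 4 *
          ((98 / 99 : ℝ) * 100 ^ c) ^ 2 * ((98 / 99 : ℝ) * 100 ^ (a + b)) := by
            rw [mul_pow, mul_pow, ← pow_mul, ← pow_mul]
            have : (100 : ℝ) ^ (5 * a + b + 2 * c) = 100 ^ (a * 4) * 100 ^ (c * 2) * 100 ^ (a + b) := by
              rw [← pow_add, ← pow_add]; congr 1; ring
            rw [this]; ring
      _ ≤ _ := by
        have h1 := hu1.1
        have h2 := hu2.1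
        have h3 := hv1.1
        gcongr
  have t1_hi : u1 ^ 4 * u2 ^ 2 * v1 ≤ (100 / 99 : ℝ) ^ 7 * 100 ^ (5 * a + b + 2 * c) := by
    calc u1 ^ 4 * u2 ^ 2 * v1 ≤ ((100 / 99 : ℝ) * 100 ^ a) ^ 4 *
          ((100 / 99 : ℝ) * 100 ^ c) ^ 2 * ((100 / 99 : ℝ) * 100 ^ (a + b)) := by
            have h1 := hu1.2
            have h2 := hu2.2
            have h3 := hv1.2
            gcongr
      _ = _ := by
            rw [mul_pow, mul_pow, ← pow_mul, ← pow_mul]
            have : (100 : ℝ) ^ (5 * a + b + 2 * c) = 100 ^ (a * 4) * 100 ^ (c * 2) * 100 ^ (a + b) := by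
              rw [← pow_add, ← pow_add]; congr 1; ring
            rw [this]; ring
  have t2_lo : (98 / 99 : ℝ) ^ 4 * 100 ^ (4 * a + 4 * b) ≤ v1 ^ 4 := by
    calc (98 / 99 : ℝ) ^ 4 * 100 ^ (4 * a + 4 * b) = ((98 / 99 : ℝ) * 100 ^ (a + b)) ^ 4 := by
            rw [mul_pow, ← pow_mul]; congr 2; ring
      _ ≤ _ := by
        have h3 := hv1.1
        gcongr
  have t2_hi : v1 ^ 4 ≤ (100 / 99 : ℝ) ^ 4 * 100 ^ (4 * a + 4 * b) := by
    calc v1 ^ 4 ≤ ((100 / 99 : ℝ) * 100 ^ (a + b)) ^ 4 := by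
            have h3 := hv1.2
            gcongr
      _ = _ := by rw [mul_pow, ← pow_mul]; congr 2; ring
  have t3_lo : (98 / 99 : ℝ) ^ 7 * 100 ^ (6 * a + c + d) ≤ u1 ^ 6 * v2 := by
    calc (98 / 99 : ℝ) ^ 7 * 100 ^ (6 * a + c + d) = ((98 / 99 : ℝ) * 100 ^ a) ^ 6 *
          ((98 / 99 : ℝ) * 100 ^ (c + d)) := by
            rw [mul_pow, ← pow_mul]
            have : (100 : ℝ) ^ (6 * a + c + d) = 100 ^ (a * 6) * 100 ^ (c + d) := by
              rw [← pow_add]; congr 1; ring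
            rw [this]; ring
      _ ≤ _ := by
        have h1 := hu1.1
        have h3 := hv2.1
        gcongr
  have t3_hi : u1 ^ 6 * v2 ≤ (100 / 99 : ℝ) ^ 7 * 100 ^ (6 * a + c + d) := by
    calc u1 ^ 6 * v2 ≤ ((100 / 99 : ℝ) * 100 ^ a) ^ 6 * ((100 / 99 : ℝ) * 100 ^ (c + d)) := by
            have h1 := hu1.2
            have h3 := hv2.2
            gcongr
      _ = _ := by
            rw [mul_pow, ← pow_mul]
            have : (100 : ℝ) ^ (6 * a + c + d) = 100 ^ (a * 6) * 100 ^ (c + d) := by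
              rw [← pow_add]; congr 1; ring
            rw [this]; ring
  have q1 : 0 < u1 ^ 4 * u2 ^ 2 * v1 := by positivity
  have q2 : 0 < v1 ^ 4 := by positivity
  have q3 : 0 < u1 ^ 6 * v2 := by positivity
  have mono : ∀ {e f : ℕ}, e ≤ f → (100 : ℝ) ^ e ≤ 100 ^ f := fun h =>
    pow_le_pow_right₀ (by norm_num) h
  unfold FF
  constructor
  · intro h
    refine ⟨?_, ?_, ?_⟩
    · by_contra hcon
      have h1 : Mn ≤ 100 ^ (5 * a + b + 2 * c) := mono (by omega)
      have h2 : (98 / 99 : ℝ) ^ 7 * Mn ≤ (98 / 99 : ℝ) ^ 7 * 100 ^ (5 * a + b + 2 * c) := by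
        gcongr
      have : (100 / 99 : ℝ) ^ 6 * Mn < 2 * ((98 / 99 : ℝ) ^ 7 * Mn) := by
        rw [← mul_assoc]
        apply mul_lt_mul_of_pos_right _ Mpos
        norm_num
      linarith
    · by_contra hcon
      have h1 : Mn ≤ 100 ^ (4 * a + 4 * b) := mono (by omega)
      have h2 : (98 / 99 : ℝ) ^ 4 * Mn ≤ (98 / 99 : ℝ) ^ 4 * 100 ^ (4 * a + 4 * b) := by
        gcongr
      have : (100 / 99 : ℝ) ^ 6 * Mn < 2 * ((98 / 99 : ℝ) ^ 4 * Mn) := by
        rw [← mul_assoc]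
        apply mul_lt_mul_of_pos_right _ Mpos
        norm_num
      linarith
    · by_contra hcon
      have h1 : Mn ≤ 100 ^ (6 * a + c + d) := mono (by omega)
      have h2 : (98 / 99 : ℝ) ^ 7 * Mn ≤ (98 / 99 : ℝ) ^ 7 * 100 ^ (6 * a + c + d) := by
        gcongr
      have : (100 / 99 : ℝ) ^ 6 * Mn < 2 * ((98 / 99 : ℝ) ^ 7 * Mn) := by
        rw [← mul_assoc]
        apply mul_lt_mul_of_pos_right _ Mpos
        norm_num
      linarith
  · rintro ⟨c1, c2, c3⟩
    have step : ∀ {e : ℕ}, e + 1 ≤ 5 * a + 2 * b + c → (100 : ℝ) ^ e ≤ Mn / 100 := by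
      intro e he
      rw [le_div_iff₀ (by norm_num), ← pow_succ]
      exact mono he
    have h1 : (100 : ℝ) ^ (5 * a + b + 2 * c) ≤ Mn / 100 := step (by omega)
    have h2 : (100 : ℝ) ^ (4 * a + 4 * b) ≤ Mn / 100 := step (by omega)
    have h3 : (100 : ℝ) ^ (6 * a + c + d) ≤ Mn / 100 := step (by omega)
    have g1 : (100 / 99 : ℝ) ^ 7 * 100 ^ (5 * a + b + 2 * c) ≤ (100 / 99 : ℝ) ^ 7 * (Mn / 100) := by
      gcongr
    have g2 : (100 / 99 : ℝ) ^ 4 * 100 ^ (4 * a + 4 * b) ≤ (100 / 99 : ℝ) ^ 4 * (Mn / 100) := by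
      gcongr
    have g3 : (100 / 99 : ℝ) ^ 7 * 100 ^ (6 * a + c + d) ≤ (100 / 99 : ℝ) ^ 7 * (Mn / 100) := by
      gcongr
    have : 2 * ((100 / 99 : ℝ) ^ 7 * (Mn / 100) + (100 / 99 : ℝ) ^ 4 * (Mn / 100) +
        (100 / 99 : ℝ) ^ 7 * (Mn / 100)) ≤ (98 / 99 : ℝ) ^ 6 * Mn := by
      have e : 2 * ((100 / 99 : ℝ) ^ 7 * (Mn / 100) + (100 / 99 : ℝ) ^ 4 * (Mn / 100) +
        (100 / 99 : ℝ) ^ 7 * (Mn / 100)) = (2 * ((100 / 99 : ℝ) ^ 7 + (100 / 99 : ℝ) ^ 4 +
        (100 / 99 : ℝ) ^ 7) / 100) * Mn := by ring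
      rw [e]
      apply mul_le_mul_of_nonneg_right _ Mpos.le
      norm_num
    linarith

end Pool.Agent.K9h64.SA
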