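import Mathlib
import Pool.Agent.K9h64.SA.Exists
import Pool.Agent.K9h64.SA.Strings

set_option autoImplicit false

/-!
# Blowing up a weighted family of levels
-/

namespace Pool.Agent.K9h64.SA

open Finset Classical

section

variable {V P : Type} [Fintype V] [Fintype P] {k W D : ℕ} {α β m : V → ℕ} {r : P → ℕ}

/-- the scaling factor of the blow-up -/
def bl (m : V → ℕ) (M : ℕ) : ℕ := M * ∑ v, m v + 1

/-- right ends in the blow-up -/
def bα (α m : V → ℕ) (M : ℕ) (x : Σ v : V, Fin (m v * M)) : ℕ := bl m M * α x.1 + (x.2 : ℕ)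

/-- left ends in the blow-up -/
def bβ (β m : V → ℕ) (M : ℕ) (x : Σ v : V, Fin (m v * M)) : ℕ := bl m M * β x.1

lemma snd_lt (m : V → ℕ) (M : ℕ) (x : Σ v : V, Fin (m v * M)) : (x.2 : ℕ) < bl m M := by
  have h1 := x.2.isLt
  have h2 : m x.1 ≤ ∑ v, m v := Finset.single_le_sum (fun _ _ => Nat.zero_le _) (mem_univ x.1)
  have h3 : m x.1 * M ≤ M * ∑ v, m v := by
    rw [mul_comm M]; exact Nat.mul_le_mul_right M h2
  unfold bl; omega

lemma b_lt (h : IsCfg k W D α β m r) (M : ℕ) (x : Σ v : V, Fin (m v * M)) :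
    bβ β m M x < bα α m M x := by
  have h1 := scale (bl m M) (h.hβα x.1)
  have h2 : 0 < bl m M := by unfold bl; omega
  unfold bβ bα
  omega

lemma b_chain (h : IsCfg k W D α β m r) (M : ℕ) : Chain (bα α m M) (bβ β m M) := by
  rintro ⟨v, s⟩ ⟨w, t⟩ hne
  have h1 := snd_lt m M ⟨v, s⟩
  have h2 := snd_lt m M ⟨w, t⟩
  simp only at h1 h2
  simp only [bα, bβ]
  by_cases hvw : v = w
  · subst hvw
    have hst : (s : ℕ) ≠ (t : ℕ) := fun e => hne (by rw [Fin.ext e])
    omega
  · rcases h.chain v w hvw with ⟨h3, h4⟩ | ⟨h3, h4⟩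
    · left
      have h5 := scale (bl m M) h3
      have h6 := scale (bl m M) h4
      simp only [mul_add] at h6
      omega
    · right
      have h5 := scale (bl m M) h3
      have h6 := scale (bl m M) h4
      simp only [mul_add] at h6
      omega

lemma b_rel (M : ℕ) (x y : Σ v : V, Fin (m v * M)) (h : Rel α β x.1 y.1) :
    Rel (bα α m M) (bβ β m M) x y := by
  obtain ⟨h1, h2, h3⟩ := h
  have s1 := snd_lt m M x
  have s2 := snd_lt m M y
  have e1 := scale (bl m M) h1
  have e2 := scale (bl m M) h2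
  have e3 := scale (bl m M) h3
  have a1 : bl m M * (2 * β x.1) = 2 * (bl m M * β x.1) := by ring
  have a2 : bl m M * (α x.1 + α y.1) = bl m M * α x.1 + bl m M * α y.1 := by ring
  have a3 : bl m M * (α x.1 + β y.1) = bl m M * α x.1 + bl m M * β y.1 := by ring
  rw [a1, a2] at e2
  rw [a1, a3] at e3
  simp only [Rel, bα, bβ]
  omega

lemma indep_le (h : IsCfg k W D α β m r) (I : Finset V) (hI : Indep α β I) :
    ∑ v ∈ I, m v ≤ D := by
  have h1 := h.wt I hI
  have hP : 0 < Fintype.card P := by rw [h.P_card]; positivity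
  have h2 : {p | Hit α β r I p}.ncard ≤ Fintype.card P := by
    rw [← Nat.card_eq_fintype_card]
    exact Set.ncard_le_card _
  have h3 : Fintype.card P * ∑ v ∈ I, m v ≤ Fintype.card P * D := by
    calc _ ≤ _ := h1
      _ ≤ D * Fintype.card P := Nat.mul_le_mul_left _ h2
      _ = _ := by ring
  exact Nat.le_of_mul_le_mul_left h3 hP

lemma card_indep (h : IsCfg k W D α β m r) (M : ℕ) :
    ((univ : Finset (Finset (Σ v : V, Fin (m v * M)))).filter
      (fun J => Indep (bα α m M) (bβ β m M) J)).card ≤ 2 ^ (Fintype.card V + D * M) := by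
  have hsub : ((univ : Finset (Finset (Σ v : V, Fin (m v * M)))).filter
      (fun J => Indep (bα α m M) (bβ β m M) J)) ⊆
      ((univ : Finset (Finset V)).filter (fun I => Indep α β I)).biUnion
        (fun I => (I.sigma (fun v => (univ : Finset (Fin (m v * M))))).powerset) := by
    intro J hJ
    simp only [mem_filter, mem_univ, true_and] at hJ
    simp only [mem_biUnion, mem_filter, mem_univ, true_and, mem_powerset]
    refine ⟨J.image Sigma.fst, ?_, ?_⟩
    · intro v hv w hw hvw
      rw [mem_image] at hv hw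
      obtain ⟨x, hx, rfl⟩ := hv
      obtain ⟨y, hy, rfl⟩ := hw
      exact hJ x hx y hy (b_rel M x y hvw)
    · intro x hx
      simp only [mem_sigma, mem_univ, and_true]
      exact mem_image_of_mem _ hx
  calc _ ≤ _ := card_le_card hsub
    _ ≤ ∑ I ∈ (univ : Finset (Finset V)).filter (fun I => Indep α β I),
        ((I.sigma (fun v => (univ : Finset (Fin (m v * M))))).powerset).card := card_biUnion_le
    _ ≤ ∑ I ∈ (univ : Finset (Finset V)).filter (fun I => Indep α β I), 2 ^ (D * M) := by
        apply sum_le_sum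
        intro I hI
        simp only [mem_filter, mem_univ, true_and] at hI
        rw [card_powerset, card_sigma]
        apply Nat.pow_le_pow_right (by norm_num)
        simp only [card_univ, Fintype.card_fin]
        rw [← Finset.sum_mul]
        exact Nat.mul_le_mul_right M (indep_le h I hI)
    _ ≤ 2 ^ Fintype.card V * 2 ^ (D * M) := by
        rw [sum_const, smul_eq_mul]
        apply Nat.mul_le_mul_right
        calc _ ≤ (univ : Finset (Finset V)).card := card_le_card (filter_subset _ _)
          _ = _ := by rw [card_univ, Fintype.card_finset]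
    _ = _ := by rw [← pow_add]

end

/-- Families of levels: many levels, few independent sets. -/
theorem exists_levels (C : ℕ) : ∃ v D : ℕ, 0 < D ∧ v ≤ 2 ^ (2 ^ (4 * C + 1)) ∧
    D ≤ 2 ^ (2 ^ (4 * C + 1)) ∧ ∀ M : ℕ, ∃ (ι : Type) (_ : Fintype ι) (α β : ι → ℕ),
      Chain α β ∧ (∀ i, β i < α i) ∧ Fintype.card ι = 2 * C * D * M ∧
      ((univ : Finset (Finset ι)).filter (fun J => Indep α β J)).card ≤ 2 ^ (v + D * M) := by
  obtain ⟨V, P, fV, fP, W, D, α, β, m, r, h⟩ := exists_cfg (4 * C)
  refine ⟨Fintype.card V, D, h.D_pos, h.V_card, h.D_le, fun M => ?_⟩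
  refine ⟨Σ v : V, Fin (m v * M), inferInstance, bα α m M, bβ β m M,
    b_chain h M, b_lt h M, ?_, card_indep h M⟩
  rw [Fintype.card_sigma]
  simp only [Fintype.card_fin]
  rw [← Finset.sum_mul]
  have ht := h.total
  have : 2 * ((∑ v, m v) * M) = 2 * (2 * C * D * M) := by
    calc 2 * ((∑ v, m v) * M) = (2 * ∑ v, m v) * M := by ring
      _ = _ := by rw [ht]; ring
  omega

end Pool.Agent.K9h64.SA
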